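import Mathlib

/-!
# MP_37b92f_co: random embeddings into universal sequences of ordered graphs
-/

namespace Pool.Agent.Results.MP_37b92f_co.UniformEmbeddings

open Filter Topology

/-- A finite ordered graph: a simple graph on `{0, …, size - 1}` with the usual order. -/
structure OGraph where
  /-- the number of vertices -/
  size : ℕ
  /-- the graph -/
  graph : SimpleGraph (Fin size)

/-- The number of edges. -/
noncomputable def numEdges (G : OGraph) : ℕ := G.graph.edgeSet.ncard

/-- An embedding `H → G`: injective and order-preserving (that is, strictly increasing) on the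
vertices, mapping edges to edges. -/
structure Emb (H G : OGraph) where
  /-- the map on the vertices -/
  toFun : Fin H.size → Fin G.size
  strictMono : StrictMono toFun
  adj : ∀ u v, H.graph.Adj u v → G.graph.Adj (toFun u) (toFun v)

/-- The edge set `φ(H)` of the image of `H`. -/
def Emb.edges {H G : OGraph} (φ : Emb H G) : Set (Sym2 (Fin G.size)) :=
  Sym2.map φ.toFun '' H.graph.edgeSet

/-- The subgraph `G'` of `G` is `F`-free. -/
def IsFree (F : OGraph) {G : OGraph} (G' : G.graph.Subgraph) : Prop :=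
  ¬ ∃ f : Fin F.size → Fin G.size, StrictMono f ∧ (∀ u, f u ∈ G'.verts) ∧
    ∀ u v, F.graph.Adj u v → G'.Adj (f u) (f v)

/-- `ρ_<(F, G)`: the largest value of `e(G') / e(G)` for `F`-free subgraphs `G'` of `G`. -/
noncomputable def relDensity (F G : OGraph) : ℝ :=
  sSup {x : ℝ | ∃ G' : G.graph.Subgraph, IsFree F G' ∧ x = (G'.edgeSet.ncard : ℝ) / numEdges G}

/-- `ρ_<(F)`: the infimum of `ρ_<(F, G)` over all ordered graphs `G` with at least one edge. -/
noncomputable def turanDensity (F : OGraph) : ℝ :=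
  sInf {x : ℝ | ∃ G : OGraph, 1 ≤ numEdges G ∧ x = relDensity F G}

/-- The sequence `G` is universal: `ρ_<(F, G n) → ρ_<(F)` for every ordered graph `F`. -/
def IsUniversal (G : ℕ → OGraph) : Prop :=
  (∀ n, 1 ≤ numEdges (G n)) ∧
    ∀ F : OGraph, Tendsto (fun n => relDensity F (G n)) atTop (𝓝 (turanDensity F))

/-- `max_{e ∈ E(G)} P(e ∈ Φ(H))` for a random embedding `Φ : H → G`. -/
noncomputable def maxHit {H G : OGraph} (Φ : PMF (Emb H G)) : ℝ :=
  ⨆ e : G.graph.edgeSet, (Φ.toOuterMeasure {φ | (e : Sym2 (Fin G.size)) ∈ φ.edges}).toReal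

/-- the complete ordered graph -/
def complete (h : ℕ) : OGraph := ⟨h, ⊤⟩

lemma complete_adj {h : ℕ} (u v : Fin h) : (complete h).graph.Adj u v ↔ u ≠ v := Iff.rfl

lemma finite_sym2 {n : ℕ} (s : Set (Sym2 (Fin n))) : s.Finite := Set.toFinite s

lemma bddAbove_set (F G : OGraph) :
    BddAbove {x : ℝ | ∃ G' : G.graph.Subgraph, IsFree F G' ∧
      x = (G'.edgeSet.ncard : ℝ) / numEdges G} := by
  refine ⟨1, ?_⟩
  rintro x ⟨G', -, rfl⟩
  apply div_le_one_of_le₀ _ (by positivity)
  exact_mod_cast Set.ncard_le_ncard G'.edgeSet_subset (finite_sym2 _)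

lemma relDensity_nonneg (F G : OGraph) : 0 ≤ relDensity F G := by
  apply Real.sSup_nonneg
  rintro x ⟨G', -, rfl⟩
  positivity

lemma le_relDensity {F G : OGraph} (G' : G.graph.Subgraph) (h : IsFree F G') :
    (G'.edgeSet.ncard : ℝ) / numEdges G ≤ relDensity F G :=
  le_csSup (bddAbove_set F G) ⟨G', h, rfl⟩

lemma turanDensity_le {F G : OGraph} (h : 1 ≤ numEdges G) : turanDensity F ≤ relDensity F G := by
  apply csInf_le
  · refine ⟨0, ?_⟩
    rintro x ⟨G, -, rfl⟩
    exact relDensity_nonneg F G
  · exact ⟨G, h, rfl⟩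

lemma numEdges_complete_pos {h : ℕ} (hh : 2 ≤ h) : 1 ≤ numEdges (complete h) := by
  have : (s(⟨0, by omega⟩, ⟨1, by omega⟩) : Sym2 (Fin h)) ∈ (complete h).graph.edgeSet := by
    have h01 : (⟨0, by omega⟩ : Fin h) ≠ ⟨1, by omega⟩ := by simp
    exact (complete_adj _ _).mpr h01
  exact Nat.one_le_iff_ne_zero.mpr (Set.ncard_ne_zero_of_mem this (finite_sym2 _))

/-- `ρ_<(H) < 1`. -/
lemma turanDensity_lt (H : OGraph) : turanDensity H < 1 := by
  set h : ℕ := max 2 H.size with hdef
  have hh : 2 ≤ h := le_max_left _ _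
  have hH : H.size ≤ h := le_max_right _ _
  have hpos := numEdges_complete_pos hh
  refine lt_of_le_of_lt (turanDensity_le (G := complete h) hpos) ?_
  have key : relDensity H (complete h) ≤
      ((numEdges (complete h) : ℝ) - 1) / numEdges (complete h) := by
    apply Real.sSup_le
    · rintro x ⟨G', hfree, rfl⟩
      have hlt : G'.edgeSet.ncard < numEdges (complete h) := by
        by_contra hge
        apply hfree
        have heq : G'.edgeSet = (complete h).graph.edgeSet :=
          Set.eq_of_subset_of_ncard_le G'.edgeSet_subset (not_lt.mp hge) (finite_sym2 _)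
        have hadj : ∀ u v : Fin h, u ≠ v → G'.Adj u v := by
          intro u v huv
          have : s(u, v) ∈ G'.edgeSet := by
            rw [heq]
            exact (complete_adj u v).mpr huv
          exact SimpleGraph.Subgraph.mem_edgeSet.mp this
        refine ⟨fun u => Fin.castLE hH u, ?_, ?_, ?_⟩
        · intro u v huv
          exact (show Fin.castLE hH u < Fin.castLE hH v from huv)
        · intro u
          obtain ⟨v, hv⟩ : ∃ v : Fin h, Fin.castLE hH u ≠ v := by
            have h01 : (⟨0, by omega⟩ : Fin h) ≠ ⟨1, by omega⟩ := by simp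
            by_cases hu : Fin.castLE hH u = (⟨0, by omega⟩ : Fin h)
            · exact ⟨⟨1, by omega⟩, fun h' => h01 (hu.symm.trans h')⟩
            · exact ⟨⟨0, by omega⟩, hu⟩
          exact (hadj _ v hv).fst_mem
        · intro u v huv
          exact hadj _ _ (fun h' => huv.ne (Fin.castLE_injective hH h'))
      have h2 : (G'.edgeSet.ncard : ℝ) ≤ (numEdges (complete h) : ℝ) - 1 := by
        have : (G'.edgeSet.ncard + 1 : ℝ) ≤ numEdges (complete h) := by exact_mod_cast hlt
        linarith
      gcongr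
    · apply div_nonneg _ (by positivity)
      have : (1 : ℝ) ≤ numEdges (complete h) := by exact_mod_cast hpos
      linarith
  refine lt_of_le_of_lt key ?_
  have : (0 : ℝ) < numEdges (complete h) := by exact_mod_cast hpos
  rw [div_lt_one this]
  linarith

/-- greedy choice of edge-disjoint copies -/
lemma exists_disjoint {H G : OGraph} {η : ℝ} (hG : 1 ≤ numEdges G)
    (hη : relDensity H G ≤ 1 - η) (k : ℕ)
    (hk : (k : ℝ) * numEdges H < η * numEdges G) :
    ∃ φ : Fin (k + 1) → Emb H G, ∀ i j, i ≠ j → Disjoint (φ i).edges (φ j).edges := by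
  -- a copy avoiding a small set of edges
  have step : ∀ U : Set (Sym2 (Fin G.size)), (U.ncard : ℝ) < η * numEdges G →
      ∃ φ : Emb H G, Disjoint φ.edges U := by
    intro U hU
    set G' : G.graph.Subgraph := (⊤ : G.graph.Subgraph).deleteEdges U with hG'
    have hedge : G'.edgeSet = G.graph.edgeSet \ U := by
      ext e
      induction e with
      | _ u v =>
        rw [SimpleGraph.Subgraph.mem_edgeSet, hG', SimpleGraph.Subgraph.deleteEdges_adj,
          SimpleGraph.Subgraph.top_adj, Set.mem_sdiff, SimpleGraph.mem_edgeSet]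
    have hcard : (numEdges G : ℝ) - U.ncard ≤ G'.edgeSet.ncard := by
      rw [hedge]
      have := Set.ncard_le_ncard_sdiff_add_ncard G.graph.edgeSet U (finite_sym2 _)
      have h' : (numEdges G : ℝ) ≤ ((G.graph.edgeSet \ U).ncard : ℝ) + U.ncard := by
        exact_mod_cast this
      linarith
    have hnot : ¬ IsFree H G' := by
      intro hf
      have h1 := le_relDensity G' hf
      have hp : (0 : ℝ) < numEdges G := by exact_mod_cast hG
      rw [div_le_iff₀ hp] at h1
      nlinarith
    rw [IsFree, not_not] at hnot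
    obtain ⟨f, hf, -, hadj⟩ := hnot
    refine ⟨⟨f, hf, fun u v huv => (hadj u v huv).adj_sub⟩, ?_⟩
    rw [Set.disjoint_left]
    rintro _ ⟨e, he, rfl⟩ hmem
    induction e with
    | _ u v =>
      have h1 : H.graph.Adj u v := he
      have h2 := hadj u v h1
      have h3 : s(f u, f v) ∈ G'.edgeSet := SimpleGraph.Subgraph.mem_edgeSet.mpr h2
      rw [hedge] at h3
      exact h3.2 hmem
  induction k with
  | zero =>
    obtain ⟨φ, -⟩ := step ∅ (by simpa using hk)
    refine ⟨fun _ => φ, fun i j hij => ?_⟩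
    exact absurd (by omega) hij
  | succ k ih =>
    have hp : (0 : ℝ) ≤ numEdges H := by positivity
    obtain ⟨φ, hφ⟩ := ih (by push_cast at hk; nlinarith)
    set U : Set (Sym2 (Fin G.size)) := ⋃ i, (φ i).edges with hUdef
    have hU : (U.ncard : ℝ) ≤ (k + 1 : ℝ) * numEdges H := by
      have h1 : U.ncard ≤ ∑ i : Fin (k + 1), (φ i).edges.ncard := by
        classical
        have : U = ⋃ i ∈ (Finset.univ : Finset (Fin (k + 1))), (φ i).edges := by
          simp [hUdef]
        rw [this]
        exact Finset.set_ncard_biUnion_le _ _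
      have h2 : ∀ i, (φ i).edges.ncard ≤ numEdges H := fun i =>
        Set.ncard_image_le (finite_sym2 _)
      have h3 : U.ncard ≤ (k + 1) * numEdges H := by
        refine h1.trans ((Finset.sum_le_sum fun i _ => h2 i).trans ?_)
        simp
      exact_mod_cast h3
    obtain ⟨ψ, hψ⟩ := step U (lt_of_le_of_lt hU (by push_cast at hk; exact hk))
    refine ⟨Fin.snoc (α := fun _ => Emb H G) φ ψ, ?_⟩
    intro i j hij
    induction i using Fin.lastCases with
    | last =>
      induction j using Fin.lastCases with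
      | last => exact absurd rfl hij
      | cast j =>
        simp only [Fin.snoc_last, Fin.snoc_castSucc]
        exact hψ.mono_right (Set.subset_iUnion (fun i => (φ i).edges) j)
    | cast i =>
      induction j using Fin.lastCases with
      | last =>
        simp only [Fin.snoc_last, Fin.snoc_castSucc]
        exact (hψ.mono_right (Set.subset_iUnion (fun i => (φ i).edges) i)).symm
      | cast j =>
        simp only [Fin.snoc_castSucc]
        exact hφ i j (fun h => hij (by rw [h]))

lemma maxHit_nonneg {H G : OGraph} (Φ : PMF (Emb H G)) : 0 ≤ maxHit Φ :=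
  Real.iSup_nonneg fun _ => ENNReal.toReal_nonneg

/-- the uniform distribution on edge-disjoint copies -/
lemma exists_pmf {H G : OGraph} {k : ℕ} (φ : Fin (k + 1) → Emb H G)
    (hφ : ∀ i j, i ≠ j → Disjoint (φ i).edges (φ j).edges) :
    ∃ Φ : PMF (Emb H G), maxHit Φ ≤ 1 / ((k : ℝ) + 1) := by
  refine ⟨(PMF.uniformOfFintype (Fin (k + 1))).map φ, ?_⟩
  apply Real.iSup_le _ (by positivity)
  intro e
  rw [PMF.toOuterMeasure_map_apply]
  set T : Set (Fin (k + 1)) := φ ⁻¹' {φ | (e : Sym2 (Fin G.size)) ∈ φ.edges} with hT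
  have hsub : T.Subsingleton := by
    intro i hi j hj
    by_contra hij
    have h1 : (e : Sym2 (Fin G.size)) ∈ (φ i).edges := hi
    have h2 : (e : Sym2 (Fin G.size)) ∈ (φ j).edges := hj
    exact Set.disjoint_left.mp (hφ i j hij) h1 h2
  classical
  have hle : (PMF.uniformOfFintype (Fin (k + 1))).toOuterMeasure T ≤ ((k : ENNReal) + 1)⁻¹ := by
    rcases hsub.eq_empty_or_singleton with h0 | ⟨i, hi⟩
    · rw [h0]; simp
    · rw [hi, PMF.toOuterMeasure_apply_singleton, PMF.uniformOfFintype_apply]
      simp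
  calc ((PMF.uniformOfFintype (Fin (k + 1))).toOuterMeasure T).toReal
      ≤ (((k : ENNReal) + 1)⁻¹).toReal := ENNReal.toReal_mono (by simp) hle
    _ = 1 / ((k : ℝ) + 1) := by
        rw [ENNReal.toReal_inv, one_div]
        congr 1

/-- in a universal sequence the number of edges tends to infinity -/
lemma numEdges_tendsto {G : ℕ → OGraph} (hG : IsUniversal G) :
    Tendsto (fun n => (numEdges (G n) : ℝ)) atTop atTop := by
  obtain ⟨hpos, huniv⟩ := hG
  rw [tendsto_atTop]
  intro M
  obtain ⟨m, hm⟩ := exists_nat_gt M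
  -- the complete graph on `m + 2` vertices has more than `m` edges
  have hbig : m < numEdges (complete (m + 2)) := by
    have hinj : Function.Injective (fun i : Fin (m + 1) =>
        (s((0 : Fin (m + 2)), i.succ) : Sym2 (Fin (m + 2)))) := by
      intro i j hij
      simpa [Sym2.eq_iff, Fin.succ_ne_zero, (Fin.succ_ne_zero _).symm] using hij
    have hsub : Set.range (fun i : Fin (m + 1) =>
        (s((0 : Fin (m + 2)), i.succ) : Sym2 (Fin (m + 2)))) ⊆
          (complete (m + 2)).graph.edgeSet := by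
      rintro _ ⟨i, rfl⟩
      exact (complete_adj _ _).mpr (Fin.succ_ne_zero i).symm
    have h1 := Set.ncard_le_ncard hsub (finite_sym2 _)
    have h2 : (Set.range (fun i : Fin (m + 1) =>
        (s((0 : Fin (m + 2)), i.succ) : Sym2 (Fin (m + 2))))).ncard = m + 1 := by
      rw [← Set.image_univ, Set.ncard_image_of_injective _ hinj, Set.ncard_univ]
      simp
    have h3 : m + 1 ≤ numEdges (complete (m + 2)) := h2 ▸ h1
    omega
  filter_upwards [(huniv (complete (m + 2))).eventually
    (gt_mem_nhds (turanDensity_lt (complete (m + 2))))] with n hn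
  by_contra hcon
  rw [not_le] at hcon
  have hfree : IsFree (complete (m + 2)) (⊤ : (G n).graph.Subgraph) := by
    rintro ⟨f, hf, -, hadj⟩
    have hle : numEdges (complete (m + 2)) ≤ numEdges (G n) := by
      refine Set.ncard_le_ncard_of_injOn (Sym2.map f) ?_ ?_ (finite_sym2 _)
      · intro e he
        induction e with
        | _ u v =>
          have h1 : (complete (m + 2)).graph.Adj u v := he
          exact (hadj u v h1).adj_sub
      · exact (Sym2.map.injective hf.injective).injOn
    have h1 : (numEdges (G n) : ℝ) < m := hcon.trans hm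
    have h2 : numEdges (G n) < m := by exact_mod_cast h1
    omega
  have h1 := le_relDensity _ hfree
  rw [SimpleGraph.Subgraph.edgeSet_top] at h1
  have h2 : ((G n).graph.edgeSet.ncard : ℝ) / numEdges (G n) = 1 := by
    have : (numEdges (G n) : ℝ) ≠ 0 := by
      have := hpos n
      positivity
    exact div_self this
  rw [h2] at h1
  linarith

/-- random embeddings with `max_e P(e ∈ Φ(H)) ≤ c / e(G_n)`, where `c > e(H) / (1 - ρ_<(H))` -/
lemma exists_pmf_const {G : ℕ → OGraph} (hG : IsUniversal G) (H : OGraph) {c : ℝ}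
    (hc : (numEdges H : ℝ) / (1 - turanDensity H) < c) :
    ∀ᶠ n in atTop, ∃ Φ : PMF (Emb H (G n)), maxHit Φ ≤ c / numEdges (G n) := by
  have hρ : 0 < 1 - turanDensity H := by linarith [turanDensity_lt H]
  have hc0 : 0 < c := lt_of_le_of_lt (by positivity) hc
  have h1 : (numEdges H : ℝ) / c < 1 - turanDensity H := by
    rw [div_lt_iff₀ hρ] at hc
    rw [div_lt_iff₀ hc0]
    linarith
  obtain ⟨η, hη1, hη2⟩ := exists_between h1
  have h2 : ∀ᶠ n in atTop, relDensity H (G n) < 1 - η :=
    (hG.2 H).eventually (gt_mem_nhds (by linarith))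
  filter_upwards [h2] with n hn
  have hp : (0 : ℝ) < numEdges (G n) := by exact_mod_cast hG.1 n
  set k : ℕ := ⌈(numEdges (G n) : ℝ) / c⌉₊ - 1 with hk
  have hceil : 1 ≤ ⌈(numEdges (G n) : ℝ) / c⌉₊ := Nat.one_le_ceil_iff.mpr (by positivity)
  have hk1 : (numEdges (G n) : ℝ) / c ≤ (k : ℝ) + 1 := by
    have h3 := Nat.le_ceil ((numEdges (G n) : ℝ) / c)
    have h4 : ((k + 1 : ℕ) : ℝ) = (⌈(numEdges (G n) : ℝ) / c⌉₊ : ℝ) := by
      congr 1
      omega
    push_cast at h4
    linarith
  have hk2 : (k : ℝ) < (numEdges (G n) : ℝ) / c := by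
    have h3 := Nat.ceil_lt_add_one (show (0 : ℝ) ≤ (numEdges (G n) : ℝ) / c by positivity)
    have h4 : ((k + 1 : ℕ) : ℝ) = (⌈(numEdges (G n) : ℝ) / c⌉₊ : ℝ) := by
      congr 1
      omega
    push_cast at h4
    linarith
  obtain ⟨φ, hφ⟩ := exists_disjoint (hG.1 n) hn.le k (by
    calc (k : ℝ) * numEdges H ≤ (numEdges (G n) : ℝ) / c * numEdges H := by gcongr
      _ = (numEdges H : ℝ) / c * numEdges (G n) := by ring
      _ < η * numEdges (G n) := by gcongr)
  obtain ⟨Φ, hΦ⟩ := exists_pmf φ hφ
  refine ⟨Φ, hΦ.trans ?_⟩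
  rw [div_le_div_iff₀ (by positivity) hp]
  rw [div_le_iff₀ hc0] at hk1
  linarith

/-- **Answer to Q1 (positive).** Let `G` be a universal sequence of ordered graphs and `H` an
ordered graph. For all large `n` there are random embeddings `Φ_n : H → G_n` with
`max_{e ∈ E(G_n)} P(e ∈ Φ_n(H)) - e(H) / e(G_n) → 0`, and they can be chosen such that
`limsup e(G_n) max_{e ∈ E(G_n)} P(e ∈ Φ_n(H)) ≤ e(H) / (1 - ρ_<(H))`, where `ρ_<(H) < 1`. -/
theorem result (G : ℕ → OGraph) (hG : IsUniversal G) (H : OGraph) :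
    turanDensity H < 1 ∧
    ∃ (N : ℕ) (Φ : ∀ n : ℕ, PMF (Emb H (G (N + n)))),
      Tendsto (fun n => maxHit (Φ n) - (numEdges H : ℝ) / numEdges (G (N + n))) atTop (𝓝 0) ∧
      ∀ ε : ℝ, 0 < ε → ∀ᶠ n in atTop,
        numEdges (G (N + n)) * maxHit (Φ n) ≤ numEdges H / (1 - turanDensity H) + ε := by
  refine ⟨turanDensity_lt H, ?_⟩
  set r : ℝ := (numEdges H : ℝ) / (1 - turanDensity H) with hr
  obtain ⟨N, hN⟩ := eventually_atTop.mp (exists_pmf_const hG H (c := r + 1) (by linarith))
  have hinf := numEdges_tendsto hG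
  have hpos : ∀ n, (0 : ℝ) < numEdges (G n) := fun n => by exact_mod_cast hG.1 n
  have hne : ∀ n, Nonempty (PMF (Emb H (G (N + n)))) := fun n =>
    ⟨(hN (N + n) (Nat.le_add_right _ _)).choose⟩
  -- choose almost optimal random embeddings
  have hopt : ∀ n, ∃ Φ : PMF (Emb H (G (N + n))), ∀ Ψ : PMF (Emb H (G (N + n))),
      maxHit Φ ≤ maxHit Ψ + 1 / ((n : ℝ) + 1) / numEdges (G (N + n)) := by
    intro n
    have := hne n
    have hbdd : BddBelow (Set.range fun Ψ : PMF (Emb H (G (N + n))) => maxHit Ψ) :=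
      ⟨0, by rintro _ ⟨Ψ, rfl⟩; exact maxHit_nonneg Ψ⟩
    have hp : (0 : ℝ) < 1 / ((n : ℝ) + 1) / numEdges (G (N + n)) :=
      div_pos (by positivity) (hpos _)
    obtain ⟨Φ, hΦ⟩ := exists_lt_of_ciInf_lt
      (show (⨅ Ψ : PMF (Emb H (G (N + n))), maxHit Ψ) <
        (⨅ Ψ : PMF (Emb H (G (N + n))), maxHit Ψ) +
          1 / ((n : ℝ) + 1) / numEdges (G (N + n)) by linarith)
    exact ⟨Φ, fun Ψ => by have := ciInf_le hbdd Ψ; linarith⟩
  choose Φ hΦ using hopt
  have hshift : Tendsto (fun n : ℕ => N + n) atTop atTop :=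
    tendsto_atTop_mono (fun n => Nat.le_add_left n N) tendsto_id
  have hbound : ∀ ε : ℝ, 0 < ε → ∀ᶠ n in atTop,
      numEdges (G (N + n)) * maxHit (Φ n) ≤ r + ε := by
    intro ε hε
    have h1 : ∀ᶠ n : ℕ in atTop, 1 / ((n : ℝ) + 1) < ε / 2 :=
      tendsto_one_div_add_atTop_nhds_zero_nat.eventually (gt_mem_nhds (half_pos hε))
    have h2 := hshift.eventually (exists_pmf_const hG H (c := r + ε / 2) (by linarith))
    filter_upwards [h1, h2] with n hn1 hn2
    obtain ⟨Ψ, hΨ⟩ := hn2
    have h3 := hΦ n Ψ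
    have hp := hpos (N + n)
    calc numEdges (G (N + n)) * maxHit (Φ n)
        ≤ numEdges (G (N + n)) * ((r + ε / 2) / numEdges (G (N + n)) +
            1 / ((n : ℝ) + 1) / numEdges (G (N + n))) := by
          gcongr
          linarith
      _ = (r + ε / 2) + 1 / ((n : ℝ) + 1) := by
          field_simp
      _ ≤ r + ε := by linarith
  refine ⟨N, Φ, ?_, hbound⟩
  have hinf' : Tendsto (fun n => (numEdges (G (N + n)) : ℝ)) atTop atTop := hinf.comp hshift
  have hA : Tendsto (fun n => maxHit (Φ n)) atTop (𝓝 0) := by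
    refine squeeze_zero' (Eventually.of_forall fun n => maxHit_nonneg _) ?_
      (Tendsto.div_atTop (tendsto_const_nhds (x := r + 1)) hinf')
    filter_upwards [hbound 1 one_pos] with n hn
    rw [le_div_iff₀ (hpos _)]
    linarith
  have hB : Tendsto (fun n => (numEdges H : ℝ) / numEdges (G (N + n))) atTop (𝓝 0) :=
    Tendsto.div_atTop tendsto_const_nhds hinf'
  simpa using hA.sub hB

end Pool.Agent.Results.MP_37b92f_co.UniformEmbeddings
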